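import Mathlib

set_option autoImplicit false

namespace Pool.Agent.Results.MP_c229cb_an.Cone

open MvPolynomial

lemma poly_line (P : MvPolynomial (Fin 2) ℂ) (a b : Fin 2 → ℂ) :
    ∃ q : Polynomial ℂ, ∀ t, q.eval t = eval (fun i => a i + t * b i) P :=
  ⟨aeval (fun i => Polynomial.C (a i) + Polynomial.X * Polynomial.C (b i)) P, fun t => by
    induction P using MvPolynomial.induction_on with
    | C c => simp
    | add p q hp hq => simp only [map_add, Polynomial.eval_add, hp, hq]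
    | mul_X p i hp => simp only [map_mul, Polynomial.eval_mul, hp]; simp [mul_comm t]⟩

/-- In `ℂ²` there are a nonempty closed cone `K` and a nonempty algebraic variety `V ≠ ℂ²` that stays
polynomially away from `K` with every exponent `N ≥ 0`, such that every algebraic hypersurface that
contains `V` meets `K`. -/
theorem result : ∃ K V : Set (EuclideanSpace ℂ (Fin 2)),
    K.Nonempty ∧ IsClosed K ∧ (∀ t : ℝ, 0 < t → ∀ z ∈ K, t • z ∈ K) ∧
    (∃ F : Finset (MvPolynomial (Fin 2) ℂ), V = {z | ∀ P ∈ F, eval z.ofLp P = 0}) ∧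
    V.Nonempty ∧ V ≠ Set.univ ∧
    (∀ N : ℝ, 0 ≤ N → ∃ c > 0, ∀ z ∈ V, c ≤ Metric.infDist z K * (1 + ‖z‖) ^ N) ∧
    ∀ P : MvPolynomial (Fin 2) ℂ, P.totalDegree ≠ 0 → (∀ z ∈ V, eval z.ofLp P = 0) →
      ∃ z ∈ K, eval z.ofLp P = 0 := by
  have hK : IsClosed {z : EuclideanSpace ℂ (Fin 2) | ‖z 1‖ ≤ ‖z 0‖} :=
    isClosed_le (by fun_prop) (by fun_prop)
  have h0 : (0 : EuclideanSpace ℂ (Fin 2)) ∈ {z : EuclideanSpace ℂ (Fin 2) | ‖z 1‖ ≤ ‖z 0‖} := by
    simp
  refine ⟨{z | ‖z 1‖ ≤ ‖z 0‖}, {!₂[0, 1]}, ⟨0, h0⟩, hK, fun t _ z hz => ?_,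
    ⟨{X 0, X 1 - 1}, ?_⟩, Set.singleton_nonempty _, fun h => ?_, fun N hN => ?_, fun P _ hP => ?_⟩
  · simp only [Set.mem_ofPred_eq, PiLp.smul_apply, norm_smul] at hz ⊢
    gcongr
  · ext z
    simp [sub_eq_zero, PiLp.ext_iff, Fin.forall_fin_two]
  · have : (0 : EuclideanSpace ℂ (Fin 2)) = !₂[0, 1] := Set.mem_singleton_iff.mp (h ▸ trivial)
    simpa using congrArg (fun z => z 1) this
  · have h1 := (hK.notMem_iff_infDist_pos ⟨0, h0⟩ (x := !₂[0, 1])).mp (by simp)
    refine ⟨_, h1, ?_⟩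
    rintro z rfl
    exact le_mul_of_one_le_right h1.le (Real.one_le_rpow (by simp) hN)
  · by_contra! h
    have h1 : ∀ l : ℂ, ‖l‖ ≤ 1 → ∀ t : ℂ, eval ![t, l * t] P = eval 0 P := by
      intro l hl t
      obtain ⟨q, hq⟩ := poly_line P 0 ![1, l]
      have h2 : ∀ t, q.eval t = eval ![t, l * t] P := fun t => by
        rw [hq]; congr 2; ext i; fin_cases i <;> simp [mul_comm]
      have h3 : q.degree ≤ 0 := by
        by_contra! h4
        obtain ⟨s, hs⟩ := Complex.exists_root h4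
        refine h !₂[s, l * s] ?_ ((h2 s).symm.trans hs)
        simpa using mul_le_of_le_one_left (norm_nonneg s) hl
      have h5 : eval 0 P = q.eval 0 := by
        rw [h2]; congr 2; ext i; fin_cases i <;> simp
      rw [← h2, h5, Polynomial.eq_C_of_degree_le_zero h3]
      simp
    obtain ⟨q, hq⟩ := poly_line P ![0, 1] ![1, 0]
    have h2 : ∀ t, q.eval t = eval ![t, 1] P := fun t => by
      rw [hq]; congr 2; ext i; fin_cases i <;> simp
    have h3 : q = Polynomial.C (eval 0 P) := by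
      refine Polynomial.eq_of_infinite_eval_eq _ _ (Set.infinite_of_injective_forall_mem
        (f := fun n : ℕ => (n : ℂ) + 1) (fun a b hab => by simpa using hab) fun n => ?_)
      have h4 : (n : ℂ) + 1 ≠ 0 := by exact_mod_cast n.succ_ne_zero
      have h5 := h1 ((n : ℂ) + 1)⁻¹ (by
        rw [norm_inv]
        refine inv_le_one_of_one_le₀ ?_
        rw [show (n : ℂ) + 1 = ((n + 1 : ℕ) : ℂ) by push_cast; rfl, Complex.norm_natCast]
        simp) (n + 1)
      rw [inv_mul_cancel₀ h4] at h5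
      simp [h2, h5]
    have h4 := h2 0
    rw [h3, Polynomial.eval_C] at h4
    have h5 : eval ![0, 1] P = 0 := hP !₂[0, 1] (Set.mem_singleton _)
    exact h 0 h0 (h4.trans h5)

end Pool.Agent.Results.MP_c229cb_an.Cone
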